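import Pool.Agent.Run7.h142.RT.Block

/-!
# Decomposition of words into words of minimal relations (helper142)
-/

set_option autoImplicit false
set_option linter.unusedSectionVars false

open CategoryTheory AlgebraicGeometry NumberField
open scoped TensorProduct
open Pool.Agent.W552 hiding cj cj_cj

universe u v

namespace Pool.Agent.Run7.h142.RT

open Pool.Agent.H914 Pool.Agent.H914.VarClass Pool.Agent.H914.VarClass.Obj
  Pool.Agent.H914.WeilCohomology Pool.Agent.H281R3.HT Pool.Agent.W534
  Pool.Agent.W458.RK Pool.Agent.W458.MF Pool.Agent.TH132.A Pool.Agent.W536.RR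
  Pool.Agent.TH121.KT Pool.Agent.Run7.h142.LT

variable {k : Type u} [Field k] {𝒱 : VarClass k} {ops : CycleOps 𝒱}
  {W : WeilCohomology.{u, v} ops} {p : ℕ} [Fact p.Prime] {Φ : FrobSystem W p}
  {κ : Type} {E : κ → Type} [∀ k, Field (E k)] [∀ k, NumberField (E k)] [∀ k, IsCMField (E k)]
  {s : ℕ} {f : Fin s → κ} {α : ∀ j, E (f j)} {X : Fin s → 𝒱.Obj} {e : Fin s → ℕ} {Z : 𝒱.Obj}

open Classical in
/-- the sign of an embedding with respect to another one -/
noncomputable def dl {F : Type} {A : Type*} [Field F] [NumberField F] [IsCMField F] [Field A]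
    (σ S : F →+* A) : ℝ := (if σ = S then 1 else 0) - (if σ = cj S then 1 else 0)

section dl

variable {F : Type} {A : Type*} [Field F] [NumberField F] [IsCMField F] [Field A]
  {σ S : F →+* A}

theorem dl_self : dl σ σ = 1 := by
  unfold dl
  rw [if_pos rfl, if_neg (fun h => cj_ne σ h.symm), sub_zero]

theorem dl_cj (σ S : F →+* A) : dl σ (cj S) = - dl σ S := by
  unfold dl
  rw [cj_cj]
  ring

theorem dl_of_ne (h1 : σ ≠ S) (h2 : σ ≠ cj S) : dl σ S = 0 := by
  unfold dl
  rw [if_neg h1, if_neg h2, sub_zero]

end dl

open Classical in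
/-- the contribution of a label to a relation -/
noncomputable def term (p : ℕ) [Fact p.Prime] (α : ∀ j, E (f j)) (n : Fin s → ℕ) {A : Type*}
    [Field A] (k : κ)
    (S : ∀ k, E k →+* A) (T : ∀ k, E k →+* PadicAlgCl p) (x : Σ j, (E (f j) →+* A)) : ℝ :=
  if f x.1 = k then dl x.2 (S (f x.1)) * (Real.log ‖T (f x.1) (α x.1)‖ / n x.1) else 0

/-- the linear relations hold -/
def IsBal (L : List (LL Φ X e α Z)) : Prop :=
  ∀ (k : κ) (S : ∀ k, E k →+* W.K) (T : ∀ k, E k →+* PadicAlgCl p),
    (L.map fun l => term p α (degs Φ X e) k S T l.label).sum = 0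

theorem term_fits {S : ∀ k, E k →+* W.K} (T : ∀ k, E k →+* PadicAlgCl p) {l : LL Φ X e α Z}
    {k : κ} (hk : f l.i = k) (h : Fits S l) : term p α (degs Φ X e) k S T l.label =
      slope p α (degs Φ X e) (sg S l) T := by
  classical
  unfold term slope
  rw [if_pos (show f l.label.1 = k from hk)]
  change dl l.σ (S (f l.i)) * _ = (if decide (l.σ = S (f l.i)) = true then (1 : ℝ) else -1) * _
  rcases h with h | h
  · have h1 : dl l.σ (S (f l.i)) = 1 := by rw [h, dl_self]
    rw [h1, if_pos (by simpa using h)]
    rfl
  · have h1 : dl l.σ (S (f l.i)) = -1 := by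
      have h2 : S (f l.i) = cj l.σ := by rw [h, cj_cj]
      rw [h2, dl_cj, dl_self]
    have h3 : l.σ ≠ S (f l.i) := by
      rw [h]
      exact cj_ne _
    rw [h1, if_neg (by simpa using h3)]
    rfl

theorem term_not {S : ∀ k, E k →+* W.K} (T : ∀ k, E k →+* PadicAlgCl p) {l : LL Φ X e α Z}
    {k : κ} (h : ¬ (f l.i = k ∧ Fits S l)) : term p α (degs Φ X e) k S T l.label = 0 := by
  classical
  unfold term
  change (if f l.i = k then dl l.σ (S (f l.i)) * _ else 0) = _
  split_ifs with h1
  · have h2 : ¬ Fits S l := fun h3 => h ⟨h1, h3⟩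
    unfold Fits at h2
    push Not at h2
    rw [dl_of_ne h2.1 h2.2, zero_mul]
  · rfl

theorem fam_eq {A : Type*} [Field A] {S S' : ∀ k, E k →+* A} {i k : κ} (h : i = k)
    (h' : S' k = S k) : S' i = S i := by
  subst h
  exact h'

theorem fam_cj {A : Type*} [Field A] {S S' : ∀ k, E k →+* A} {i k : κ} (h : i = k)
    (h' : S' k = cj (S k)) : S' i = cj (S i) := by
  subst h
  exact h'

/-- a relation for one family is one for all -/
theorem bal_block {k : κ} {S : ∀ k, E k →+* W.K} {B : List (LL Φ X e α Z)}
    (hB : ∀ l ∈ B, f l.i = k ∧ Fits S l)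
    (hrel : ∀ T : (∀ k, E k →+* PadicAlgCl p),
      ((B.map (sg S)).map fun x => slope p α (degs Φ X e) x T).sum = 0) : IsBal B := by
  classical
  have h0 : ∀ T : (∀ k, E k →+* PadicAlgCl p),
      (B.map fun l => term p α (degs Φ X e) k S T l.label).sum = 0 := by
    intro T
    rw [← hrel T, List.map_map]
    congr 1
    refine List.map_congr_left fun l hl => ?_
    exact term_fits T (hB l hl).1 (hB l hl).2
  intro k' S' T
  by_cases hk : k' = k
  · subst hk
    by_cases h1 : S' k' = S k'
    · rw [← h0 T]
      congr 1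
      refine List.map_congr_left fun l hl => ?_
      unfold term
      rw [fam_eq (i := f l.label.1) (hB l hl).1 h1]
    · by_cases h2 : S' k' = cj (S k')
      · have h3 : (B.map fun l => term p α (degs Φ X e) k' S' T l.label) =
            B.map fun l => (-1 : ℝ) * term p α (degs Φ X e) k' S T l.label := by
          refine List.map_congr_left fun l hl => ?_
          unfold term
          rw [fam_cj (i := f l.label.1) (hB l hl).1 h2, dl_cj]
          split_ifs
          · ring
          · ring
        rw [h3, List.sum_map_mul_left, h0 T, mul_zero]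
      · refine List.sum_eq_zero fun z hz => ?_
        obtain ⟨l, hl, rfl⟩ := List.mem_map.1 hz
        refine term_not T fun h3 => ?_
        have hne1 : S' (f l.i) ≠ S (f l.i) := fun h4 =>
          h1 (fam_eq (S := S) (S' := S') (hB l hl).1.symm h4)
        have hne2 : S' (f l.i) ≠ cj (S (f l.i)) := fun h4 =>
          h2 (fam_cj (S := S) (S' := S') (hB l hl).1.symm h4)
        rcases h3.2 with h4 | h4 <;> rcases (hB l hl).2 with h5 | h5
        · exact hne1 (by rw [← h4, h5])
        · exact hne2 (by rw [← h4, h5])
        · exact hne2 (by rw [← h5, h4, cj_cj])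
        · exact hne1 (by rw [← cj_cj (S' (f l.i)), ← h4, h5, cj_cj])
  · refine List.sum_eq_zero fun z hz => ?_
    obtain ⟨l, hl, rfl⟩ := List.mem_map.1 hz
    refine term_not T fun h3 => hk ?_
    rw [← h3.1, (hB l hl).1]

/-- a relation contains a minimal relation -/
theorem exists_minimal {k : κ} (S : ∀ k, E k →+* W.K) (G : List (LL Φ X e α Z))
    (hG : IsRelation p α (degs Φ X e) k (G.map (sg S))) :
    ∃ B : List (LL Φ X e α Z), B.Sublist G ∧
      IsMinimal p α (degs Φ X e) k (B.map (sg S)) := by
  classical
  have hex : ∃ m, ∃ B : List (LL Φ X e α Z), B.Sublist G ∧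
      IsRelation p α (degs Φ X e) k (B.map (sg S)) ∧ B.length = m :=
    ⟨_, G, List.Sublist.refl _, hG, rfl⟩
  obtain ⟨B, h1, h2, h3⟩ := Nat.find_spec hex
  refine ⟨B, h1, h2, fun l' hl' hr => ?_⟩
  obtain ⟨B', hB', rfl⟩ := List.sublist_map_iff.1 hl'
  have h4 : Nat.find hex ≤ B'.length := Nat.find_min' hex ⟨B', hB'.trans h1, hr, rfl⟩
  rw [← h3] at h4
  rw [hB'.eq_of_length_le h4]

/-- **Words which satisfy the linear relations are algebraic.** -/
theorem bal_alg [IsAlgClosed W.K] (hα : IsPNumber p α) (hpos : ∀ j, 0 < e j)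
    (hT : TateForRelations Φ α X e)
    (hpar : ∀ k l, IsMinimal p α (degs Φ X e) k l → Even (dimOf X l)) :
    ∀ (m : ℕ) (L : List (LL Φ X e α Z)), L.length ≤ m → IsBal L → wordVal L ∈ algSpan W Z := by
  classical
  intro m
  induction m with
  | zero =>
    intro L hL _
    rw [List.length_eq_zero_iff.1 (Nat.le_zero.1 hL), wordVal_nil]
    exact one_mem_algSpan
  | succ m ih =>
    intro L hL hbal
    rcases L with _ | ⟨a, L'⟩
    · rw [wordVal_nil]
      exact one_mem_algSpan
    · generalize hL' : a :: L' = L at *
      have hne : ∀ k, Nonempty (E k →+* W.K) := fun k =>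
        ⟨(IsAlgClosed.lift : E k →ₐ[ℚ] W.K).toRingHom⟩
      let S : ∀ k, E k →+* W.K := Function.update (fun k => (hne k).some) (f a.i) a.σ
      have hS : S (f a.i) = a.σ := Function.update_self _ _ _
      let G : List (LL Φ X e α Z) := L.filter fun l => decide (f l.i = f a.i ∧ Fits S l)
      have hGmem : ∀ l ∈ G, f l.i = f a.i ∧ Fits S l := fun l hl => by
        have := (List.mem_filter.1 hl).2
        simpa using this
      have haG : a ∈ G := by
        refine List.mem_filter.2 ⟨?_, ?_⟩
        · rw [← hL']
          exact List.mem_cons_self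
        · rw [decide_eq_true_eq]
          exact ⟨rfl, Or.inl hS.symm⟩
      have hsum : ∀ T : (∀ k, E k →+* PadicAlgCl p),
          ((G.map (sg S)).map fun x => slope p α (degs Φ X e) x T).sum = 0 := by
        intro T
        rw [← hbal (f a.i) S T, List.map_map]
        have h1 : ∀ L : List (LL Φ X e α Z),
            ((L.filter fun l => decide (f l.i = f a.i ∧ Fits S l)).map
              ((fun x => slope p α (degs Φ X e) x T) ∘ sg S)).sum =
            (L.map fun l => term p α (degs Φ X e) (f a.i) S T l.label).sum := by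
          intro L
          induction L with
          | nil => rfl
          | cons b L ihL =>
            by_cases hb : f b.i = f a.i ∧ Fits S b
            · rw [List.filter_cons_of_pos (by simpa using hb), List.map_cons, List.map_cons,
                List.sum_cons, List.sum_cons, ihL, term_fits T hb.1 hb.2]
              rfl
            · rw [List.filter_cons_of_neg (by simpa using hb), List.map_cons, List.sum_cons, ihL,
                term_not T hb, zero_add]
        exact h1 L
      have hrel : IsRelation p α (degs Φ X e) (f a.i) (G.map (sg S)) := by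
        refine ⟨?_, ?_, hsum⟩
        · intro h
          rw [List.map_eq_nil_iff] at h
          rw [h] at haG
          exact absurd haG List.not_mem_nil
        · intro x hx
          obtain ⟨l, hl, rfl⟩ := List.mem_map.1 hx
          exact (hGmem l hl).1
      obtain ⟨B, hBG, hmin⟩ := exists_minimal S G hrel
      have hBmem : ∀ l ∈ B, f l.i = f a.i ∧ Fits S l := fun l hl => hGmem l (hBG.subset hl)
      have hBL : B.Sublist L := hBG.trans List.filter_sublist
      obtain ⟨R, hR⟩ := hBL.exists_perm_append
      obtain ⟨c, hc⟩ := wordVal_perm hR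
      rw [hc, wordVal_append]
      refine Submodule.smul_mem _ _ (algSpan_mul (block_alg hα hpos hT hpar S B
        (fun l hl => (hBmem l hl).2) hmin) (ih R ?_ ?_))
      · have h1 := hR.length_eq
        rw [List.length_append] at h1
        have h2 : 0 < B.length := by
          rw [List.length_pos_iff]
          rintro rfl
          exact hmin.rel.ne rfl
        omega
      · have hBbal : IsBal B := bal_block hBmem hmin.rel.sum
        intro k S' T
        have h1 := (hR.map fun l => term p α (degs Φ X e) k S' T l.label).sum_eq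
        rw [List.map_append, List.sum_append, hbal k S' T, hBbal k S' T, zero_add] at h1
        exact h1.symm

end Pool.Agent.Run7.h142.RT
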