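import Pool.Agent.Run7.h142.LT.FamDefs

/-!
# Linear relations between the valuations of Weil numbers of the same CM fields: definitions (helper142)
-/

set_option autoImplicit false

open CategoryTheory AlgebraicGeometry NumberField

universe u v

namespace Pool.Agent.Run7.h142.RT

open Pool.Agent.H914 Pool.Agent.H914.VarClass Pool.Agent.H914.VarClass.Obj
  Pool.Agent.H914.WeilCohomology Pool.Agent.H281R3.HT Pool.Agent.W534 Pool.Agent.TH121.KT
  Pool.Agent.Run7.h142.LT

/-- The numbers `α j` have all complex absolute values one, and they are units at all finite places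
that do not divide `p`. -/
structure IsPNumber (p : ℕ) {κ : Type} {E : κ → Type} [∀ k, Field (E k)] {s : ℕ}
    {f : Fin s → κ} (α : ∀ j, E (f j)) : Prop where
  unitary : ∀ j (φ : E (f j) →+* ℂ), ‖φ (α j)‖ = 1
  unit : ∀ (ℓ : ℕ) [Fact ℓ.Prime], ℓ ≠ p → ∀ j (τ : E (f j) →+* PadicAlgCl ℓ), ‖τ (α j)‖ = 1

/-- The normalized valuation of the number `α j`: the logarithm of its absolute value under an
embedding in the algebraic closure of `ℚ_p`, divided by `n j`. -/
noncomputable def slope (p : ℕ) [Fact p.Prime] {κ : Type} {E : κ → Type} [∀ k, Field (E k)] {s : ℕ}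
    {f : Fin s → κ} (α : ∀ j, E (f j)) (n : Fin s → ℕ) (x : Fin s × Bool)
    (τ : ∀ k, E k →+* PadicAlgCl p) : ℝ :=
  (if x.2 then 1 else -1) * (Real.log ‖τ (f x.1) (α x.1)‖ / n x.1)

/-- A relation for the field `E k`: a nonempty list of the indices `j` with `f j = k`, with signs, such
that the sum of the normalized valuations of the `α j` with these signs is zero, for all embeddings of
`E k` in the algebraic closure of `ℚ_p`. -/
structure IsRelation (p : ℕ) [Fact p.Prime] {κ : Type} {E : κ → Type} [∀ k, Field (E k)] {s : ℕ}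
    {f : Fin s → κ} (α : ∀ j, E (f j)) (n : Fin s → ℕ) (k : κ) (l : List (Fin s × Bool)) :
    Prop where
  ne : l ≠ []
  field : ∀ x ∈ l, f x.1 = k
  sum : ∀ τ : (∀ k, E k →+* PadicAlgCl p), (l.map fun x => slope p α n x τ).sum = 0

/-- A relation is minimal if no proper part of it is a relation. -/
structure IsMinimal (p : ℕ) [Fact p.Prime] {κ : Type} {E : κ → Type} [∀ k, Field (E k)] {s : ℕ}
    {f : Fin s → κ} (α : ∀ j, E (f j)) (n : Fin s → ℕ) (k : κ) (l : List (Fin s × Bool)) :
    Prop where
  rel : IsRelation p α n k l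
  min : ∀ l', l'.Sublist l → IsRelation p α n k l' → l' = l

/-- The product of `X j` and of the varieties in the list. -/
noncomputable def prodOf {k : Type u} [Field k] {𝒱 : VarClass k} {s : ℕ} (X : Fin s → 𝒱.Obj) :
    Fin s → List (Fin s) → 𝒱.Obj
  | j, [] => X j
  | j, i :: l => (X j).prod (prodOf X i l)

/-- The sum of the dimensions of the varieties of a relation. -/
noncomputable def dimOf {k : Type u} [Field k] {𝒱 : VarClass k} {s : ℕ} (X : Fin s → 𝒱.Obj)
    (l : List (Fin s × Bool)) : ℕ := (l.map fun x => (X x.1).dim).sum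

/-- The cohomology of each of the varieties `X j` is spanned by classes of algebraic cycles and by
eigenvectors, in the middle degree `dim (X j)`, of the Frobenius endomorphism whose eigenvalues are,
up to roots of unity, `q ^ (dim (X j) / 2)` times `e j`-th roots of conjugates of the number `α j`
(`q = p ^ Φ.e (X j)` is the number of elements of the field of definition of the Frobenius
endomorphism). -/
structure HaveWeilNumbers {k : Type u} [Field k] {𝒱 : VarClass k} {ops : CycleOps 𝒱}
    {W : WeilCohomology.{u, v} ops} {p : ℕ} (Φ : FrobSystem W p) {s : ℕ} {K : Fin s → Type}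
    [∀ j, Field (K j)] (α : ∀ j, K j) (X : Fin s → 𝒱.Obj) (e : Fin s → ℕ) : Prop where
  pos : ∀ j, 0 < e j
  spanned : ∀ j, IsWeilSpanned (algSpan W (X j)) (W.gr (X j) (X j).dim) (W.map (Φ.Fr (X j))) p
    (Φ.e (X j) * (X j).dim) (e j) (Set.range fun σ : K j →+* W.K => σ (α j))

/-- The degrees `e j * Φ.e (X j)` by which the valuations are normalized. -/
noncomputable def degs {k : Type u} [Field k] {𝒱 : VarClass k} {ops : CycleOps 𝒱}
    {W : WeilCohomology.{u, v} ops} {p : ℕ} (Φ : FrobSystem W p) {s : ℕ} (X : Fin s → 𝒱.Obj)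
    (e : Fin s → ℕ) (j : Fin s) : ℕ := e j * Φ.e (X j)

/-- The Tate conjecture, in the middle codimension, for the products of the varieties of the minimal
relations. -/
def TateForRelations {k : Type u} [Field k] {𝒱 : VarClass k} {ops : CycleOps 𝒱}
    {W : WeilCohomology.{u, v} ops} {p : ℕ} [Fact p.Prime] (Φ : FrobSystem W p) {κ : Type}
    {E : κ → Type} [∀ k, Field (E k)] {s : ℕ} {f : Fin s → κ} (α : ∀ j, E (f j))
    (X : Fin s → 𝒱.Obj) (e : Fin s → ℕ) : Prop :=
  ∀ k x l, IsMinimal p α (degs Φ X e) k (x :: l) →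
    TateIn Φ (prodOf X x.1 (l.map Prod.fst)) (dimOf X (x :: l) / 2)

end Pool.Agent.Run7.h142.RT
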