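import Pool.Agent.Run7.h142.LT.Bal
import Pool.Agent.Run7.h142.RT.Defs

/-!
# Multiplicative relations between arbitrary Weil numbers of the same CM fields (helper142)
-/

set_option autoImplicit false
set_option linter.unusedSectionVars false

namespace Pool.Agent.Run7.h142.RT

open NumberField Polynomial Module Pool.Agent.TH121.KT Pool.Agent.Run7.h142.LT

noncomputable section

variable {κ : Type} [Fintype κ] {E : κ → Type} [∀ k, Field (E k)] [∀ k, NumberField (E k)]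
  [∀ k, IsCMField (E k)] {p : ℕ} [Fact p.Prime] {ι : Qb →+* PadicAlgCl p} {r : ℕ} {f : Fin r → κ}
  {α : ∀ i, E (f i)}

/-- **The diagonal entries of a relation vanish.** -/
theorem diag_zero {L : IntermediateField ℚ Qb} (hE : NoRigidPairsOver E L)
    (hu : ∀ i (φ : E (f i) →+* ℂ), ‖φ (α i)‖ = 1) {w : Fin r → ℕ}
    (N : ∀ i, (E (f i) →+* Qb) → ℕ)
    (hinv : ∀ h : GQ, (∀ x ∈ L, h x = x) → ∀ g : GQ,
      ∑ i, (w i : ℝ) * FF ι (α i) (N i) (h * g) = ∑ i, (w i : ℝ) * FF ι (α i) (N i) g)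
    (g : GQ) (k : κ) (y : E k →+* Qb) : AA ι α w N g k y y = 0 := by
  classical
  refine vanishC (G := PG E L) (fun k => (E k →+* Qb)) (fun k => cj) (fun k x => cj_ne x)
    ?_ ?_ ?_ (AA ι α w N g) (fun k x y => AA_left w N g k x y)
    (fun k x y => AA_right hu w N g k x y) (2 * ∑ i, (w i : ℝ) * FF ι (α i) (N i) g) ?_ k y
  · rintro ⟨_, h, rfl⟩ k x
    exact act_cj h.1 x
  · intro k x
    obtain ⟨h, h1, h2⟩ := hE.single ⟨k, x⟩
    refine ⟨⟨permHom E L ⟨h, (IntermediateField.mem_fixingSubgroup_iff _ _).2 h1⟩, _, rfl⟩, ?_⟩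
    rw [smul_mk]
    ext z
    exact h2 z
  · rintro ⟨k, x⟩ ⟨l, y⟩ h3 h4
    obtain ⟨h, h1, h2, h5⟩ := hE.pair ⟨k, x⟩ ⟨l, y⟩ h3 h4
    refine ⟨⟨permHom E L ⟨h, (IntermediateField.mem_fixingSubgroup_iff _ _).2 h1⟩, _, rfl⟩,
      ?_, ?_⟩
    · rw [smul_mk]
      ext z
      exact h2 z
    · rw [smul_mk]
      ext z
      exact h5 z
  · rintro ⟨_, h, rfl⟩
    have h1 := sum_AA (ι := ι) hu w N g h.1
    rw [hinv h.1 ((IntermediateField.mem_fixingSubgroup_iff _ _).1 h.2)] at h1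
    exact h1

theorem term_eq {w : Fin r → ℕ} {N : ∀ i, (E (f i) →+* Qb) → ℕ} (i : Fin r) {k : κ}
    (h : f i = k) {S : ∀ k, E k →+* Qb} {T : ∀ k, E k →+* PadicAlgCl p} {g : GQ}
    {ρ : E k →+* Qb} (hg : act g (S k) = ρ) (hρ : ι.comp ρ = T k) :
    (w i : ℝ) * (odd (N i) (act g⁻¹ (tr h ρ)) : ℝ) * Real.log ‖ι (tr h ρ (α i))‖ =
      (w i : ℝ) * (odd (N i) (S (f i)) : ℝ) * Real.log ‖T (f i) (α i)‖ := by
  subst h
  rw [tr_rfl, ← hρ, ← hg, act_inv_act]
  rfl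

theorem diag_fam {L : IntermediateField ℚ Qb} (hE : NoRigidPairsOver E L)
    (hu : ∀ i (φ : E (f i) →+* ℂ), ‖φ (α i)‖ = 1) {w : Fin r → ℕ}
    (N : ∀ i, (E (f i) →+* Qb) → ℕ)
    (hinv : ∀ h : GQ, (∀ x ∈ L, h x = x) → ∀ g : GQ,
      ∑ i, (w i : ℝ) * FF ι (α i) (N i) (h * g) = ∑ i, (w i : ℝ) * FF ι (α i) (N i) g)
    (k : κ) (S : ∀ k, E k →+* Qb) (T : ∀ k, E k →+* PadicAlgCl p) [DecidableEq κ] :
    ∑ i, (if f i = k then
      (w i : ℝ) * (odd (N i) (S (f i)) : ℝ) * Real.log ‖T (f i) (α i)‖ else 0) = 0 := by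
  classical
  obtain ⟨ρ, hρ⟩ := exists_lift ι (T k)
  obtain ⟨g, hg⟩ := exists_act_eq (S k) ρ
  refine Eq.trans ?_ (diag_zero (ι := ι) hE hu N hinv g k ρ)
  unfold AA
  refine Finset.sum_congr rfl fun i _ => ?_
  by_cases h : f i = k
  · rw [if_pos h, dif_pos h, term_eq i h hg hρ]
  · rw [if_neg h, dif_neg h]

/-- **Relations.** If a product of conjugates of the `α i` times a power of a root of `Q` is rational,
then for each field and each pair of embeddings the valuations satisfy a linear relation. -/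
theorem diag_of_relation [DecidableEq κ] {Ω : Type*} [Field Ω] [CharZero Ω] [IsAlgClosed Ω]
    (ι : Qb →+* PadicAlgCl p)
    (n : ∀ i, (E (f i) →+* Ω) → ℕ) {w : Fin r → ℕ} {W : ℕ} {β : Ω} {x₀ : ℚ}
    (hx₀ : x₀ ≠ 0) (hβ0 : β ≠ 0)
    (hrel : letterProd (K := fun i => E (f i)) α w n * β ^ W = (x₀ : Ω))
    {Q : ℚ[X]} (hQ : Q ≠ 0) (hβ : aeval β Q = 0) {L : IntermediateField ℚ Qb}
    (hL : SlopesFixed p ι L Q) (hE : NoRigidPairsOver E L)
    (hu : ∀ i (φ : E (f i) →+* ℂ), ‖φ (α i)‖ = 1)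
    (k : κ) (S : ∀ k, E k →+* Ω) (T : ∀ k, E k →+* PadicAlgCl p) :
    ∑ i, (if f i = k then (w i : ℝ) * ((n i (S (f i)) : ℝ) - n i (cj (S (f i)))) *
      Real.log ‖T (f i) (α i)‖ else 0) = 0 := by
  classical
  let τ : Qb →+* Ω := (IsAlgClosed.lift : Qb →ₐ[ℚ] Ω).toRingHom
  obtain ⟨β', hβ', hτβ⟩ := exists_root τ hQ hβ
  have hbij : ∀ i, Function.Bijective (fun ρ : E (f i) →+* Qb => τ.comp ρ) := by
    intro i
    constructor
    · intro ρ ρ' h
      ext x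
      exact τ.injective (RingHom.congr_fun h x)
    · intro σ
      obtain ⟨ρ, hρ⟩ := exists_lift τ σ
      exact ⟨ρ, hρ⟩
  let N : (Σ i, (E (f i) →+* Qb)) → ℕ := fun x => n x.1 (τ.comp x.2)
  let NN : ∀ i, (E (f i) →+* Qb) → ℕ := fun i σ => N ⟨i, σ⟩
  have hprod : letterProd (K := fun i => E (f i)) α w n =
      τ (∏ x : Σ i, (E (f i) →+* Qb), (x.2 (α x.1)) ^ (w x.1 * N x)) := by
    rw [map_prod, Fintype.prod_sigma]
    unfold letterProd
    refine Finset.prod_congr rfl fun i _ => ?_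
    refine (Fintype.prod_equiv (Equiv.ofBijective _ (hbij i)) _ _ fun ρ => ?_).symm
    rw [map_pow]
    rfl
  have hβ0' : β' ≠ 0 := by
    rintro rfl
    rw [map_zero] at hτβ
    exact hβ0 hτβ.symm
  have hrel' : ∏ x : Σ i, (E (f i) →+* Qb), (x.2 (α x.1)) ^ (w x.1 * N x) =
      β' ^ (-(W : ℤ)) * (x₀ : Qb) := by
    apply τ.injective
    rw [← hprod, map_mul, map_zpow₀, hτβ, map_ratCast, ← hrel, zpow_neg, zpow_natCast]
    field_simp
  have hsum : ∀ g : GQ, ∑ i, (w i : ℝ) * FF ι (α i) (NN i) g =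
      (-(W : ℤ) : ℤ) * Real.log ‖ι (g β')‖ + Real.log ‖ι (x₀ : Qb)‖ := by
    intro g
    have h1 := congrArg (fun z => Real.log ‖ι (g z)‖) hrel'
    simp only [map_prod, map_pow, norm_prod, norm_pow, map_mul, map_zpow₀, norm_mul, norm_zpow,
      map_ratCast] at h1
    rw [Real.log_mul, Real.log_zpow, Real.log_prod] at h1
    rotate_left
    · intro x _
      exact pow_ne_zero _ (norm_pos' (hu x.1) (act g x.2)).ne'
    · refine zpow_ne_zero _ ?_
      rw [norm_ne_zero_iff, ne_eq, map_eq_zero, map_eq_zero]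
      exact hβ0'
    · rw [norm_ne_zero_iff]
      exact Rat.cast_ne_zero.2 hx₀
    rw [map_ratCast, ← h1, Fintype.sum_sigma]
    refine Finset.sum_congr rfl fun i _ => ?_
    unfold FF
    rw [Finset.mul_sum]
    refine Finset.sum_congr rfl fun σ _ => ?_
    rw [Real.log_pow]
    push_cast
    ring
  have hex : ∀ k, ∃ ρ : E k →+* Qb, τ.comp ρ = S k := fun k => exists_lift τ (S k)
  choose S' hS' using hex
  have h1 := diag_fam (ι := ι) hE hu NN (fun h hh g => by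
    rw [hsum, hsum]
    have hgβ : aeval (g β') Q = 0 := by
      rw [Polynomial.aeval_algHom_apply g β' Q, hβ', map_zero]
    have h3 : ‖ι ((h * g) β')‖ = ‖ι (g β')‖ := hL h hh (g β') hgβ
    rw [h3]) k S' T
  refine Eq.trans ?_ h1
  refine Finset.sum_congr rfl fun i _ => ?_
  split_ifs with h
  · congr 2
    unfold odd
    push_cast
    change (n i (S (f i)) : ℝ) - n i (cj (S (f i))) =
      (n i (τ.comp (S' (f i))) : ℝ) - n i (τ.comp (cj (S' (f i))))
    rw [← hS' (f i)]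
    rfl
  · rfl

end

end Pool.Agent.Run7.h142.RT
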