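import Pool.Agent.R940.Kron
import Pool.Agent.TH121.KT.Final
import Pool.Agent.TH121.KT.Rel
import Pool.Agent.Run7.h142.RT.Defs

/-!
# Relations between valuations give roots of unity (helper142)
-/

set_option autoImplicit false
set_option linter.unusedSectionVars false

namespace Pool.Agent.Run7.h142.RT

open NumberField Polynomial Module Pool.Agent.TH121.KT Pool.Agent.Run7.h142.LT

noncomputable section

variable {κ : Type} {E : κ → Type} [∀ k, Field (E k)] [∀ k, NumberField (E k)]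
  [∀ k, IsCMField (E k)] {p : ℕ} [Fact p.Prime] {s : ℕ} {f : Fin s → κ}
  {α : ∀ i, E (f i)}

/-- the sign -/
def sgn (b : Bool) : ℝ := if b then 1 else -1

/-- the value of a label -/
def lval (α : ∀ i, E (f i)) {A : Type*} [Field A] (T : ∀ k, E k →+* A) (x : Fin s × Bool) : A :=
  if x.2 then T (f x.1) (α x.1) else cj (T (f x.1)) (α x.1)

theorem lval_ne (hu : ∀ i (φ : E (f i) →+* ℂ), ‖φ (α i)‖ = 1) {A : Type*} [Field A]
    (T : ∀ k, E k →+* A) (x : Fin s × Bool) : lval α T x ≠ 0 := by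
  have h1 : ∀ σ : E (f x.1) →+* A, σ (α x.1) ≠ 0 := fun σ => by
    rw [ne_eq, map_eq_zero]
    exact alpha_ne (hu x.1)
  unfold lval
  split_ifs
  · exact h1 _
  · exact h1 _

theorem log_lval (hu : ∀ i (φ : E (f i) →+* ℂ), ‖φ (α i)‖ = 1) {A : Type*} [NormedField A]
    (T : ∀ k, E k →+* A) (x : Fin s × Bool) :
    Real.log ‖lval α T x‖ = sgn x.2 * Real.log ‖T (f x.1) (α x.1)‖ := by
  unfold lval sgn
  split_ifs
  · rw [one_mul]
  · rw [cj_val (hu x.1), norm_inv, Real.log_inv, neg_one_mul]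

theorem map_lval {A B : Type*} [Field A] [Field B] (g : A →+* B) (T : ∀ k, E k →+* A)
    (x : Fin s × Bool) : g (lval α T x) = lval α (fun k => g.comp (T k)) x := by
  unfold lval
  split_ifs
  · rfl
  · rfl

/-- the product of the values of a list of labels -/
def lprod (α : ∀ i, E (f i)) {A : Type*} [Field A] (T : ∀ k, E k →+* A) (m : Fin s → ℕ)
    (l : List (Fin s × Bool)) : A := (l.map fun x => lval α T x ^ m x.1).prod

theorem lprod_ne (hu : ∀ i (φ : E (f i) →+* ℂ), ‖φ (α i)‖ = 1) {A : Type*} [Field A]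
    (T : ∀ k, E k →+* A) (m : Fin s → ℕ) (l : List (Fin s × Bool)) : lprod α T m l ≠ 0 := by
  induction l with
  | nil => exact one_ne_zero
  | cons x l ih =>
    change lval α T x ^ m x.1 * lprod α T m l ≠ 0
    exact mul_ne_zero (pow_ne_zero _ (lval_ne hu T x)) ih

theorem log_lprod (hu : ∀ i (φ : E (f i) →+* ℂ), ‖φ (α i)‖ = 1) {A : Type*} [NormedField A]
    (T : ∀ k, E k →+* A) (m : Fin s → ℕ) (l : List (Fin s × Bool)) :
    Real.log ‖lprod α T m l‖ =
      (l.map fun x => sgn x.2 * (m x.1 * Real.log ‖T (f x.1) (α x.1)‖)).sum := by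
  induction l with
  | nil =>
    change Real.log ‖(1 : A)‖ = 0
    rw [norm_one, Real.log_one]
  | cons x l ih =>
    change Real.log ‖lval α T x ^ m x.1 * lprod α T m l‖ = _
    rw [norm_mul, Real.log_mul (norm_ne_zero_iff.2 (pow_ne_zero _ (lval_ne hu T x)))
      (norm_ne_zero_iff.2 (lprod_ne hu T m l)), ih, norm_pow, Real.log_pow, log_lval hu,
      List.map_cons, List.sum_cons]
    ring

theorem map_lprod {A B : Type*} [Field A] [Field B] (g : A →+* B) (T : ∀ k, E k →+* A)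
    (m : Fin s → ℕ) (l : List (Fin s × Bool)) :
    g (lprod α T m l) = lprod α (fun k => g.comp (T k)) m l := by
  unfold lprod
  rw [map_list_prod, List.map_map]
  congr 1
  refine List.map_congr_left fun x _ => ?_
  change g (lval α T x ^ m x.1) = _
  rw [map_pow, map_lval]

/-- the norms at `p` -/
theorem norm_at (hα : IsPNumber p α) (S' : ∀ k, E k →+* Qb) (m : Fin s → ℕ)
    (l : List (Fin s × Bool))
    (h : ∀ T : (∀ k, E k →+* PadicAlgCl p),
      (l.map fun x => sgn x.2 * (m x.1 * Real.log ‖T (f x.1) (α x.1)‖)).sum = 0)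
    (g : Qb →+* PadicAlgCl p) : ‖g (lprod α S' m l)‖ ≤ 1 := by
  have h3 : g (lprod α S' m l) = lprod α (fun k => g.comp (S' k)) m l := map_lprod g S' m l
  have h4 : Real.log ‖g (lprod α S' m l)‖ = 0 := by
    rw [h3, log_lprod hα.unitary]
    exact h fun k => g.comp (S' k)
  have h5 : 0 < ‖g (lprod α S' m l)‖ := norm_pos_iff.2
    ((_root_.map_ne_zero g).2 (lprod_ne hα.unitary S' m l))
  exact (Real.eq_one_of_pos_of_log_eq_zero h5 h4).le

/-- the norms outside of `p` -/
theorem norm_off (hα : IsPNumber p α) (S' : ∀ k, E k →+* Qb) (m : Fin s → ℕ)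
    (l : List (Fin s × Bool)) {ℓ : ℕ} [Fact ℓ.Prime] (hℓ : ℓ ≠ p)
    (g : Qb →+* PadicAlgCl ℓ) : ‖g (lprod α S' m l)‖ ≤ 1 := by
  have h3 : g (lprod α S' m l) = lprod α (fun k => g.comp (S' k)) m l := map_lprod g S' m l
  have h4 : Real.log ‖g (lprod α S' m l)‖ = 0 := by
    rw [h3, log_lprod hα.unitary]
    refine List.sum_eq_zero fun z hz => ?_
    obtain ⟨x, -, rfl⟩ := List.mem_map.1 hz
    rw [hα.unit ℓ hℓ, Real.log_one, mul_zero, mul_zero]
  have h5 : 0 < ‖g (lprod α S' m l)‖ := norm_pos_iff.2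
    ((_root_.map_ne_zero g).2 (lprod_ne hα.unitary S' m l))
  exact (Real.eq_one_of_pos_of_log_eq_zero h5 h4).le

/-- the complex norms -/
theorem norm_cx (hα : IsPNumber p α) (S' : ∀ k, E k →+* Qb) (m : Fin s → ℕ)
    (l : List (Fin s × Bool)) (g : Qb →+* ℂ) : ‖g (lprod α S' m l)‖ ≤ 1 := by
  have h3 : g (lprod α S' m l) = lprod α (fun k => g.comp (S' k)) m l := map_lprod g S' m l
  have h4 : Real.log ‖g (lprod α S' m l)‖ = 0 := by
    rw [h3, log_lprod hα.unitary]
    refine List.sum_eq_zero fun z hz => ?_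
    obtain ⟨x, -, rfl⟩ := List.mem_map.1 hz
    rw [hα.unitary, Real.log_one, mul_zero, mul_zero]
  have h5 : 0 < ‖g (lprod α S' m l)‖ := norm_pos_iff.2
    ((_root_.map_ne_zero g).2 (lprod_ne hα.unitary S' m l))
  exact (Real.eq_one_of_pos_of_log_eq_zero h5 h4).le

theorem halg (x : Qb) : IsAlgebraic ℚ x := (AlgebraicClosure.isAlgebraic ℚ).isAlgebraic x

theorem hlift {A : Type} [Field A] [Algebra ℚ A] [IsAlgClosed A] (x : Qb) (y : A)
    (hy : aeval y (minpoly ℚ x) = 0) : ∃ g : Qb →+* A, g x = y := by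
  have _ : Algebra.IsAlgebraic ℚ Qb := AlgebraicClosure.isAlgebraic ℚ
  have h2 := Algebra.IsAlgebraic.range_eval_eq_rootSet_minpoly (F := ℚ) (A := A) x
  have h3 : y ∈ (minpoly ℚ x).rootSet A :=
    mem_rootSet.2 ⟨minpoly.ne_zero (halg x).isIntegral, hy⟩
  rw [← h2] at h3
  obtain ⟨g, hg⟩ := h3
  exact ⟨g.toRingHom, hg⟩

/-- **Roots of unity.** -/
theorem root_of_relation (hα : IsPNumber p α) {Ω : Type*} [Field Ω] [CharZero Ω]
    [IsAlgClosed Ω] (S : ∀ k, E k →+* Ω) (m : Fin s → ℕ) (l : List (Fin s × Bool))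
    (h : ∀ T : (∀ k, E k →+* PadicAlgCl p),
      (l.map fun x => sgn x.2 * (m x.1 * Real.log ‖T (f x.1) (α x.1)‖)).sum = 0) :
    ∃ n : ℕ, 0 < n ∧ lprod α S m l ^ n = 1 := by
  let τ : Qb →+* Ω := (IsAlgClosed.lift : Qb →ₐ[ℚ] Ω).toRingHom
  have hex : ∀ k, ∃ ρ : E k →+* Qb, τ.comp ρ = S k := fun k => exists_lift τ (S k)
  choose S' hS' using hex
  have h1 : lprod α S m l = τ (lprod α S' m l) := by
    rw [map_lprod]
    congr 1
    funext k
    exact (hS' k).symm
  obtain ⟨n, hn, h2⟩ := Pool.Agent.R940.root_of_unity (x := lprod α S' m l) (halg _)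
    (lprod_ne hα.unitary S' m l)
    (fun ℓ hF y hy => by
      obtain ⟨g, hg⟩ := hlift _ y hy
      rw [← hg]
      by_cases hℓ : ℓ = p
      · subst hℓ
        exact norm_at hα S' m l h g
      · exact norm_off hα S' m l hℓ g)
    (fun y hy => by
      obtain ⟨g, hg⟩ := hlift _ y hy
      rw [← hg]
      exact norm_cx hα S' m l g)
  exact ⟨n, hn, by rw [h1, ← map_pow, h2, map_one]⟩

end

end Pool.Agent.Run7.h142.RT
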