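import Pool.Agent.Run7.h142.RT.Words
import Pool.Agent.Run7.h142.RT.Root
import Pool.Agent.Run7.h142.LT.Bal

/-!
# Words of minimal relations are algebraic (helper142)
-/

set_option autoImplicit false
set_option linter.unusedSectionVars false

open CategoryTheory AlgebraicGeometry NumberField
open scoped TensorProduct

universe u v

namespace Pool.Agent.Run7.h142.RT

open Pool.Agent.H914 Pool.Agent.H914.VarClass Pool.Agent.H914.VarClass.Obj
  Pool.Agent.H914.WeilCohomology Pool.Agent.H281R3.HT Pool.Agent.W552 Pool.Agent.W534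
  Pool.Agent.W458.RK Pool.Agent.W458.MF Pool.Agent.TH132.A Pool.Agent.W536.RR
  Pool.Agent.TH121.KT Pool.Agent.Run7.h142.LT

variable {k : Type u} [Field k] {𝒱 : VarClass k} {ops : CycleOps 𝒱}
  {W : WeilCohomology.{u, v} ops} {p : ℕ} [Fact p.Prime] {Φ : FrobSystem W p}
  {κ : Type} {E : κ → Type} [∀ k, Field (E k)] [∀ k, NumberField (E k)] [∀ k, IsCMField (E k)]
  {s : ℕ} {f : Fin s → κ} {α : ∀ j, E (f j)} {X : Fin s → 𝒱.Obj} {e : Fin s → ℕ} {Z : 𝒱.Obj}

/-- the letters -/
abbrev LL (Φ : FrobSystem W p) (X : Fin s → 𝒱.Obj) (e : Fin s → ℕ) (α : ∀ j, E (f j))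
    (Z : 𝒱.Obj) := Letter (K := fun j => E (f j)) Φ X e α Z

open Classical in
/-- the signed index of a label -/
noncomputable def sgL (S : ∀ k, E k →+* W.K) (x : Σ j, (E (f j) →+* W.K)) : Fin s × Bool :=
  (x.1, decide (x.2 = S (f x.1)))

/-- the signed index of a letter -/
noncomputable def sg (S : ∀ k, E k →+* W.K) (l : LL Φ X e α Z) : Fin s × Bool := sgL S l.label

/-- the letter belongs to the pair of `S` -/
def Fits (S : ∀ k, E k →+* W.K) (l : LL Φ X e α Z) : Prop :=
  l.σ = S (f l.i) ∨ l.σ = cj (S (f l.i))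

theorem val_eq {S : ∀ k, E k →+* W.K} {l : LL Φ X e α Z} (h : Fits S l) :
    l.σ (α l.i) = lval α S (sg S l) := by
  classical
  unfold lval sg sgL
  by_cases h1 : l.σ = S (f l.i)
  · have h2 : decide ((Letter.label l).2 = S (f (Letter.label l).1)) = true := decide_eq_true h1
    rw [h2, if_pos rfl, h1]
    rfl
  · have h2 : decide ((Letter.label l).2 = S (f (Letter.label l).1)) = false :=
      decide_eq_false h1
    rw [h2, if_neg (by simp)]
    rcases h with h | h
    · exact absurd h h1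
    · rw [h]
      rfl

theorem prod_eq {S : ∀ k, E k →+* W.K} {C : List (LL Φ X e α Z)} (h : ∀ l ∈ C, Fits S l)
    (m : Fin s → ℕ) :
    (C.map fun l => (l.σ (α l.i)) ^ m l.i).prod = lprod α S m (C.map (sg S)) := by
  unfold lprod
  rw [List.map_map]
  congr 1
  refine List.map_congr_left fun l hl => ?_
  rw [val_eq (h l hl)]
  rfl

/-- the exponents in terms of the degrees -/
theorem expo_mul (Z : 𝒱.Obj) (t M : ℕ) (j : Fin s) :
    expo Φ X e Z t M j * degs Φ X e j = 2 * (t * Φ.e Z) * M * ∏ i, (e i * Φ.e (X i)) := by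
  unfold expo degs
  rw [mul_assoc, mul_comm (∏ i ∈ Finset.univ.erase j, _), Finset.mul_prod_erase Finset.univ
    (fun i => e i * Φ.e (X i)) (Finset.mem_univ j)]

theorem degs_pos (hpos : ∀ j, 0 < e j) (j : Fin s) : 0 < degs Φ X e j :=
  Nat.mul_pos (hpos j) (Φ.e_pos _)

/-- the relation with the exponents -/
theorem rel_expo (hpos : ∀ j, 0 < e j) {l : List (Fin s × Bool)}
    (h : ∀ T : (∀ k, E k →+* PadicAlgCl p), (l.map fun x => slope p α (degs Φ X e) x T).sum = 0)
    (Z : 𝒱.Obj) (t M : ℕ) (T : ∀ k, E k →+* PadicAlgCl p) :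
    (l.map fun x => sgn x.2 *
      (expo Φ X e Z t M x.1 * Real.log ‖T (f x.1) (α x.1)‖)).sum = 0 := by
  have h1 : (fun x : Fin s × Bool => sgn x.2 *
      ((expo Φ X e Z t M x.1 : ℝ) * Real.log ‖T (f x.1) (α x.1)‖)) =
      fun x => ((2 * (t * Φ.e Z) * M * ∏ i, (e i * Φ.e (X i)) : ℕ) : ℝ) *
        slope p α (degs Φ X e) x T := by
    funext x
    have h2 : ((expo Φ X e Z t M x.1 : ℕ) : ℝ) * ((degs Φ X e x.1 : ℕ) : ℝ) =
        ((2 * (t * Φ.e Z) * M * ∏ i, (e i * Φ.e (X i)) : ℕ) : ℝ) := by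
      rw [← Nat.cast_mul, expo_mul]
    have h3 : ((degs Φ X e x.1 : ℕ) : ℝ) ≠ 0 := Nat.cast_ne_zero.2 (degs_pos hpos x.1).ne'
    rw [← h2]
    unfold slope sgn
    field_simp
  rw [h1, List.sum_map_mul_left, h T, mul_zero]

/-- **Words of minimal relations are algebraic.** -/
theorem block_alg [IsAlgClosed W.K] (hα : IsPNumber p α) (hpos : ∀ j, 0 < e j)
    (hT : TateForRelations Φ α X e)
    (hpar : ∀ k l, IsMinimal p α (degs Φ X e) k l → Even (dimOf X l)) {k : κ}
    (S : ∀ k, E k →+* W.K) (B : List (LL Φ X e α Z)) (hB : ∀ l ∈ B, Fits S l)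
    (hmin : IsMinimal p α (degs Φ X e) k (B.map (sg S))) : wordVal B ∈ algSpan W Z := by
  classical
  rcases B with _ | ⟨a, B⟩
  · exact absurd rfl hmin.rel.ne
  obtain ⟨g, C, hC, hv⟩ := exists_tuple a B
  rw [hv]
  refine algSpan_map _ ?_
  have hsgC : C.map (sg S) = (a :: B).map (sg S) := by
    have h1 : ∀ {Y : 𝒱.Obj} (D : List (LL Φ X e α Y)),
        D.map (sg S) = (D.map Letter.label).map (sgL S) := by
      intro Y D
      rw [List.map_map]
      rfl
    rw [h1, h1, hC]
  have hfits : ∀ l ∈ C, Fits S l := by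
    intro l hl
    have h1 : l.label ∈ C.map Letter.label := List.mem_map_of_mem hl
    rw [hC] at h1
    obtain ⟨l', hl', h2⟩ := List.mem_map.1 h1
    have h3 := hB l' hl'
    unfold Fits at h3 ⊢
    change l'.label.2 = S (f l'.label.1) ∨ l'.label.2 = cj (S (f l'.label.1)) at h3
    change l.label.2 = S (f l.label.1) ∨ l.label.2 = cj (S (f l.label.1))
    rw [← h2]
    exact h3
  have hTY : TateIn Φ (prodOf X a.i (B.map fun l => l.i))
      (dimOf X ((a :: B).map (sg S)) / 2) := by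
    have h1 := hT k (sg S a) (B.map (sg S)) hmin
    rw [List.map_map] at h1
    exact h1
  obtain ⟨m, hm⟩ := hpar k _ hmin
  have hm2 : dimOf X ((a :: B).map (sg S)) / 2 = m := by omega
  rw [hm2] at hTY
  have hdim : (C.map fun l => (X l.i).dim).sum = 2 * m := by
    have h1 : (C.map fun l => (X l.i).dim) = (C.map (sg S)).map fun x => (X x.1).dim := by
      rw [List.map_map]
      rfl
    rw [h1, hsgC]
    change dimOf X _ = _
    omega
  refine Pool.Agent.W397.MF.spanCycles_le_algSpan _ (hTY _ ⟨?_, ?_⟩)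
  · rw [← hdim]
    exact wordVal_mem_gr C
  · obtain ⟨t, M, ht, hM, hl⟩ := word_level C
    have hl' := hl 1 one_pos
    rw [mul_one] at hl'
    obtain ⟨ω, h1, h2⟩ := word_eigen' C hl'
    rw [prod_eq hfits] at h2
    obtain ⟨N, hN, h3⟩ := root_of_relation hα S (expo Φ X e _ t M) (C.map (sg S))
      (rel_expo hpos (by rw [hsgC]; exact hmin.rel.sum) _ t M)
    let D : ℕ := ∏ j, (e j * Φ.e (X j))
    have hD : 0 < D := Finset.prod_pos fun j _ => Nat.mul_pos (hpos j) (Φ.e_pos _)
    have hd : 0 < 2 * D * M * N :=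
      Nat.mul_pos (Nat.mul_pos (Nat.mul_pos two_pos hD) hM) hN
    refine ⟨t * (2 * D * M * N), Nat.mul_pos ht hd, ?_⟩
    have h4 : ω ^ (2 * D * M * N) =
        (card Φ (prodOf X a.i (B.map fun l => l.i)) t : W.K) ^ (m * (2 * D * M * N)) := by
      rw [pow_mul, h2, mul_pow, h3, mul_one, ← pow_mul, hdim]
      congr 1
      change 2 * m * D * M * N = _
      ring
    change frob Φ _ (t * (2 * D * M * N)) (wordVal C) = _
    have h5 : ∀ n, ((frob Φ (prodOf X a.i (B.map fun l => l.i)) t) ^ n) (wordVal C) =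
        ω ^ n • wordVal C := by
      intro n
      induction n with
      | zero => rw [pow_zero, pow_zero, one_smul]; rfl
      | succ n ih =>
        rw [pow_succ', Module.End.mul_apply, ih, map_smul, h1, smul_smul, pow_succ]
    rw [frob_mul_eq, h5, h4, card_pow]
    congr 2
    ring

end Pool.Agent.Run7.h142.RT
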