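import Pool.Agent.TH121.KT.Word2
import Pool.Agent.Run7.h142.RT.Defs

/-!
# Words: permutations, blocks, spanning (helper142)
-/

set_option autoImplicit false
set_option linter.unusedSectionVars false

open CategoryTheory AlgebraicGeometry NumberField
open scoped TensorProduct

universe u v

namespace Pool.Agent.Run7.h142.RT

open Pool.Agent.H914 Pool.Agent.H914.VarClass Pool.Agent.H914.VarClass.Obj
  Pool.Agent.H914.WeilCohomology Pool.Agent.H281R3.HT Pool.Agent.W552 Pool.Agent.W534
  Pool.Agent.W458.RK Pool.Agent.W458.MF Pool.Agent.TH132.A Pool.Agent.W536.RR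
  Pool.Agent.TH121.KT Pool.Agent.Run7.h142.LT

variable {k : Type u} [Field k] {𝒱 : VarClass k} {ops : CycleOps 𝒱}
  {W : WeilCohomology.{u, v} ops} {p : ℕ} {Φ : FrobSystem W p}
  {s : ℕ} {X : Fin s → 𝒱.Obj} {e : Fin s → ℕ} {K : Fin s → Type} [∀ i, Field (K i)]
  {α : ∀ i, K i} {Z Z' : 𝒱.Obj}

/-- the degree of a word -/
lemma wordVal_mem_gr (L : List (Letter Φ X e α Z)) :
    wordVal L ∈ W.gr Z (L.map fun l => (X l.i).dim).sum := by
  induction L with
  | nil => exact W.one_mem Z
  | cons a L ih =>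
    rw [wordVal_cons, List.map_cons, List.sum_cons]
    exact W.mul_mem a.val_mem ih

/-- permutations of words -/
lemma wordVal_perm {L L' : List (Letter Φ X e α Z)} (h : L.Perm L') :
    ∃ c : W.K, wordVal L = c • wordVal L' := by
  induction h with
  | nil => exact ⟨1, (one_smul _ _).symm⟩
  | cons x _ ih =>
    obtain ⟨c, hc⟩ := ih
    exact ⟨c, by rw [wordVal_cons, wordVal_cons, hc, mul_smul_comm]⟩
  | swap x y l =>
    refine ⟨(-1) ^ ((X y.i).dim * (X x.i).dim), ?_⟩
    rw [wordVal_cons, wordVal_cons, wordVal_cons, wordVal_cons, ← mul_assoc,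
      W.comm y.val_mem x.val_mem, smul_mul_assoc, mul_assoc]
  | trans _ _ ih1 ih2 =>
    obtain ⟨c, hc⟩ := ih1
    obtain ⟨d, hd⟩ := ih2
    exact ⟨c * d, by rw [hc, hd, smul_smul]⟩

/-- the eigenvalue of a word, with the exact exponent -/
lemma word_eigen' {t M : ℕ} (L : List (Letter Φ X e α Z)) (hL : ∀ l ∈ L, l.At t M) :
    ∃ ω : W.K, frob Φ Z t (wordVal L) = ω • wordVal L ∧
      ω ^ (2 * (∏ j, (e j * Φ.e (X j))) * M) =
        (card Φ Z t : W.K) ^ ((L.map fun l => (X l.i).dim).sum * (∏ j, (e j * Φ.e (X j))) * M) *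
        (L.map fun l => (l.σ (α l.i)) ^ expo Φ X e Z t M l.i).prod := by
  induction L with
  | nil =>
    refine ⟨1, ?_, ?_⟩
    · rw [wordVal_nil, frob_one, one_smul]
    · rw [one_pow, List.map_nil, List.map_nil, List.sum_nil, zero_mul, zero_mul, pow_zero,
        List.prod_nil, mul_one]
  | cons a L ih =>
    obtain ⟨ω, h1, h2⟩ := ih fun l hl => hL l (List.mem_cons_of_mem _ hl)
    obtain ⟨ω', h3, h4⟩ := hL a List.mem_cons_self
    let E : ℕ := ∏ j ∈ Finset.univ.erase a.i, (e j * Φ.e (X j))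
    have hE : ∏ j, (e j * Φ.e (X j)) = e a.i * Φ.e (X a.i) * E :=
      (Finset.mul_prod_erase Finset.univ (fun j => e j * Φ.e (X j)) (Finset.mem_univ a.i)).symm
    refine ⟨ω' * ω, ?_, ?_⟩
    · rw [wordVal_cons, frob_mul_apply, h1, h3, smul_mul_smul_comm]
    · rw [mul_pow, h2, List.map_cons, List.map_cons, List.sum_cons, List.prod_cons]
      have h5 : 2 * (∏ j, (e j * Φ.e (X j))) * M = 2 * (e a.i * Φ.e (X a.i)) * M * E := by
        rw [hE]; ring
      rw [h5, pow_mul, h4, mul_pow, ← pow_mul, ← pow_mul]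
      have h6 : ((X a.i).dim + (L.map fun l => (X l.i).dim).sum) *
          (∏ j, (e j * Φ.e (X j))) * M = (X a.i).dim * (e a.i * Φ.e (X a.i)) * M * E +
          (L.map fun l => (X l.i).dim).sum * (∏ j, (e j * Φ.e (X j))) * M := by
        rw [hE]; ring
      rw [h6, pow_add]
      change _ = _ * ((a.σ (α a.i)) ^ (2 * (t * Φ.e Z) * M * E) * _)
      ring

/-- a word comes from the product of the varieties of its letters -/
lemma exists_tuple (a : Letter Φ X e α Z) (B : List (Letter Φ X e α Z)) :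
    ∃ (g : Z ⟶ prodOf X a.i (B.map fun l => l.i))
      (C : List (Letter Φ X e α (prodOf X a.i (B.map fun l => l.i)))),
      C.map Letter.label = (a :: B).map Letter.label ∧
      wordVal (a :: B) = W.map g (wordVal C) := by
  induction B generalizing a with
  | nil =>
    refine ⟨a.f, [⟨a.i, 𝟙 (X a.i), a.σ, a.x, a.h⟩], rfl, ?_⟩
    change wordVal [a] = W.map a.f (wordVal [⟨a.i, 𝟙 (X a.i), a.σ, a.x, a.h⟩])
    rw [wordVal_cons, wordVal_nil, wordVal_cons, wordVal_nil, mul_one, mul_one]
    change W.map a.f a.x = W.map a.f (W.map (𝟙 (X a.i)) a.x)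
    rw [W.map_id]
  | cons b B ih =>
    obtain ⟨g, C, h1, h2⟩ := ih b
    let Y := prodOf X b.i (B.map fun l => l.i)
    let a' : Letter Φ X e α ((X a.i).prod Y) := ⟨a.i, fst (X a.i) Y, a.σ, a.x, a.h⟩
    refine ⟨lift a.f g, a' :: C.map (Letter.pull (snd (X a.i) Y)), ?_, ?_⟩
    · change a'.label :: (C.map (Letter.pull (snd (X a.i) Y))).map Letter.label = a.label :: _
      rw [List.map_map]
      congr 1
    · change wordVal (a :: b :: B) =
        W.map (lift a.f g) (wordVal (a' :: C.map (Letter.pull (snd (X a.i) Y))))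
      rw [wordVal_cons a (b :: B), wordVal_cons a', wordVal_pull, map_mul, h2]
      congr 1
      · change W.map a.f a.x = W.map (lift a.f g) (W.map (fst (X a.i) Y) a.x)
        rw [← W.map_comp, lift_fst]
      · rw [← W.map_comp, lift_snd]

section Span

variable [∀ i, NumberField (K i)]

/-- **The cohomology of the products is spanned by words.** -/
theorem span_words_of (hT : ∀ j, algSpan W (X j) ⊔
    Submodule.span W.K {x | ∃ σ, IsLetter Φ (X j) (e j) (α j) σ x} = ⊤) {n : Fin s → ℕ}
    (hZ : IsProductOfCopies W X n Z) (z : W.H Z) :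
    z ∈ Submodule.span W.K (Words Φ X e α n Z) := by
  induction hZ with
  | alg h =>
    refine alg_words ?_
    rw [h]
    exact Submodule.mem_top
  | base i =>
    have h1 : z ∈ algSpan W (X i) ⊔ Submodule.span W.K
        {x | ∃ σ, IsLetter Φ (X i) (e i) (α i) σ x} := by
      rw [hT i]
      exact Submodule.mem_top
    obtain ⟨a, ha, b, hb, rfl⟩ := Submodule.mem_sup.1 h1
    refine Submodule.add_mem _ (alg_words ha) ?_
    refine Submodule.span_mono ?_ hb
    rintro x ⟨σ, hx⟩
    refine ⟨[⟨i, 𝟙 (X i), σ, x, hx⟩], 0, (X i).V.fundCycle, (X i).V.fundCycle_mem,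
      fun j => mult_single _ j, ?_⟩
    rw [wordVal_cons, wordVal_nil, mul_one, W.cl_fund, mul_one]
    exact (W.map_id (X i) x).symm
  | prod hY hZ ihY ihZ =>
    rename_i m n Y Z
    obtain ⟨t, rfl⟩ := (W.kunneth Y Z).2 z
    induction t using TensorProduct.induction_on with
    | zero => rw [map_zero]; exact Submodule.zero_mem _
    | add x y hx hy => rw [map_add]; exact Submodule.add_mem _ hx hy
    | tmul x y => exact word_mul (ihY x) (ihZ y)

end Span

end Pool.Agent.Run7.h142.RT
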